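import Mathlib

set_option autoImplicit false

namespace Pool.Agent.Results.MP_26bcd4_gt.Outer

open Set Filter Topology

/-- `U` is an outer illuminating set of `K` -/
def Illum (K U : Set (EuclideanSpace ℝ (Fin 3))) : Prop :=
  ∀ x ∈ frontier K, ∃ u ∈ U, ∃ ε : ℝ, 0 < ε ∧ ε < 1 ∧ x + ε • u ∈ interior K

abbrev E : Type := EuclideanSpace ℝ (Fin 3)

noncomputable def zz (p : E) : ℂ := (p 0 : ℂ) + (p 1 : ℂ) * Complex.I

noncomputable def NN (p : E) : ℝ := ‖zz p‖ + |p 2|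

def KK : Set E := {p | NN p ≤ 1}

theorem zz_add (x y : E) : zz (x + y) = zz x + zz y := by simp [zz]; ring
theorem zz_smul (t : ℝ) (x : E) : zz (t • x) = t * zz x := by simp [zz]; ring

theorem NN_cont : Continuous NN := by unfold NN zz; fun_prop

theorem NN_smul (t : ℝ) (ht : 0 ≤ t) (x : E) : NN (t • x) = t * NN x := by
  simp [NN, zz_smul, abs_mul, abs_of_nonneg ht, mul_add]

theorem NN_add (x y : E) : NN (x + y) ≤ NN x + NN y := by
  unfold NN
  rw [zz_add]
  have := norm_add_le (zz x) (zz y)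
  have h2 : |(x + y) 2| ≤ |x 2| + |y 2| := abs_add_le _ _
  linarith

theorem int_iff (p : E) : p ∈ interior KK ↔ NN p < 1 := by
  constructor
  · intro hp
    have h1 : ∀ᶠ t : ℝ in 𝓝 1, t • p ∈ KK := by
      have hc : Continuous fun t : ℝ => t • p := by fun_prop
      exact hc.continuousAt.preimage_mem_nhds (by simpa using mem_interior_iff_mem_nhds.1 hp)
    obtain ⟨t, ht, ht1⟩ := ((h1.filter_mono nhdsWithin_le_nhds).and
      (self_mem_nhdsWithin : Ioi (1 : ℝ) ∈ 𝓝[>] 1)).exists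
    have ht1' : 1 < t := ht1
    have h2 : t * NN p ≤ 1 := by rw [← NN_smul t (by linarith)]; exact ht
    by_contra hc
    nlinarith [not_lt.1 hc]
  · intro hp
    exact interior_maximal (fun q (hq : NN q < 1) => hq.le) (isOpen_lt NN_cont continuous_const) hp

theorem closedK : IsClosed KK := isClosed_le NN_cont continuous_const

theorem fr_iff (p : E) : p ∈ frontier KK ↔ NN p = 1 := by
  rw [closedK.frontier_eq, mem_diff, int_iff, not_lt]
  exact ⟨fun h => le_antisymm h.1 h.2, fun h => ⟨h.le, h.ge⟩⟩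

theorem compactK : IsCompact KK := by
  refine Metric.isCompact_of_isClosed_isBounded closedK (isBounded_iff_forall_norm_le.2 ⟨2, fun p hp => ?_⟩)
  have h : ‖zz p‖ + |p 2| ≤ 1 := hp
  have h0 : |p 0| ≤ ‖zz p‖ := by simpa [zz] using Complex.abs_re_le_norm (zz p)
  have h1 : |p 1| ≤ ‖zz p‖ := by simpa [zz] using Complex.abs_im_le_norm (zz p)
  rw [EuclideanSpace.norm_eq, Real.sqrt_le_iff, Fin.sum_univ_three]
  simp only [Real.norm_eq_abs]
  refine ⟨by norm_num, ?_⟩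
  nlinarith [abs_nonneg (p 0), abs_nonneg (p 1), abs_nonneg (p 2), norm_nonneg (zz p)]

theorem convexK : Convex ℝ KK := by
  intro x hx y hy a b ha hb hab
  have h := NN_add (a • x) (b • y)
  rw [NN_smul a ha, NN_smul b hb] at h
  have hx' : NN x ≤ 1 := hx
  have hy' : NN y ≤ 1 := hy
  change NN _ ≤ 1
  nlinarith

def rho (a w : ℂ) : ℝ := a.re * w.re + a.im * w.im

theorem sq1 {a : ℂ} (h : ‖a‖ = 1) : a.re ^ 2 + a.im ^ 2 = 1 := by
  have := Complex.sq_norm a
  rw [h, Complex.normSq_apply] at this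
  nlinarith

theorem lemA {a w : ℂ} (ha : ‖a‖ = 1) {η c : ℝ} (hη : 0 < η) (h : ‖a - η * w‖ + η * c < 1) :
    c < rho a w := by
  have h1 := Complex.re_le_norm ((a - η * w) * (starRingEnd ℂ) a)
  rw [norm_mul, Complex.norm_conj, ha, mul_one] at h1
  have h2 : ((a - η * w) * (starRingEnd ℂ) a).re = 1 - η * rho a w := by
    simp [rho]; nlinarith [sq1 ha]
  rw [h2] at h1
  by_contra hc
  nlinarith [not_lt.1 hc]

theorem lemB {a w : ℂ} (ha : ‖a‖ = 1) (hw : ‖w‖ = 1) {η c : ℝ} (hc : 0 < c) (hc1 : c < 1)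
    (hη : 0 < η) (h1 : η < 1) (h2 : η < rho a w - c) : ‖a - η * w‖ + η * c < 1 := by
  have h3 : ‖a - η * w‖ ^ 2 = 1 - 2 * η * rho a w + η ^ 2 := by
    rw [Complex.sq_norm, Complex.normSq_apply]
    simp [rho]
    linear_combination sq1 ha + η ^ 2 * sq1 hw
  have h4 : ‖a - η * w‖ < 1 - η * c := by
    refine lt_of_pow_lt_pow_left₀ 2 (by nlinarith) ?_
    rw [h3]
    nlinarith [mul_pos hη (sub_pos.2 h2), sq_nonneg (η * c), mul_pos hη hη]
  linarith

noncomputable def u0 (c : ℝ) (w : ℂ) : E := !₂[-w.re, -w.im, c]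
noncomputable def dir (c : ℝ) (w : ℂ) : E := ‖u0 c w‖⁻¹ • u0 c w
noncomputable def ee (s : ℝ) : E := !₂[0, 0, s]

theorem u0_pos {c : ℝ} (hc : 0 < c) (w : ℂ) : 0 < ‖u0 c w‖ :=
  norm_pos_iff.2 fun h => hc.ne' (by simpa [u0] using congrArg (fun p : E => p 2) h)

theorem NN_dir {c : ℝ} (hc : 0 < c) (w : ℂ) (x : E) (hx : x 2 = 0) {ε : ℝ} (hε : 0 < ε) :
    NN (x + ε • dir c w) = ‖zz x - (ε * ‖u0 c w‖⁻¹ : ℝ) * w‖ + ε * ‖u0 c w‖⁻¹ * c := by
  have h := u0_pos hc w
  have h1 : zz (u0 c w) = -w := by apply Complex.ext <;> simp [zz, u0]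
  have h2 : (x + (ε * ‖u0 c w‖⁻¹) • u0 c w) 2 = ε * ‖u0 c w‖⁻¹ * c := by
    rw [PiLp.add_apply, PiLp.smul_apply, hx, zero_add]; rfl
  rw [dir, smul_smul, NN, zz_add, zz_smul, h1, h2, abs_of_pos (by positivity), mul_neg,
    ← sub_eq_add_neg]

theorem NN_ee (s : ℝ) (x : E) (ε : ℝ) : NN (x + ε • ee s) = ‖zz x‖ + |x 2 + ε * s| := by
  have h1 : zz (ee s) = 0 := by simp [zz, ee]
  rw [NN, zz_add, zz_smul, h1, mul_zero, add_zero]
  rfl

/-- The double cone over a disc in three-space has arbitrarily large primitive outer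
illuminating sets. -/
theorem result : ∃ K : Set (EuclideanSpace ℝ (Fin 3)), IsCompact K ∧ Convex ℝ K ∧
    (interior K).Nonempty ∧ ∀ n : ℕ, ∃ U : Finset (EuclideanSpace ℝ (Fin 3)), n ≤ U.card ∧
      (∀ u ∈ U, ‖u‖ = 1) ∧ Illum K U ∧ ∀ V : Set (EuclideanSpace ℝ (Fin 3)), V ⊂ U → ¬ Illum K V := by
  classical
  refine ⟨KK, compactK, convexK, ⟨0, (int_iff 0).2 (by simp [NN, zz])⟩, fun n => ?_⟩
  obtain ⟨δ, hδ⟩ : ∃ δ : ℝ, δ = 1 / ((n : ℝ) + 1) := ⟨_, rfl⟩
  have hn0 : (0 : ℝ) ≤ n := Nat.cast_nonneg n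
  have hδ0 : 0 < δ := by rw [hδ]; positivity
  have hδ1 : δ * (n + 1) = 1 := by rw [hδ]; field_simp
  obtain ⟨c, hcd⟩ : ∃ c : ℝ, c = 1 - δ ^ 2 / 8 := ⟨_, rfl⟩
  have hc : 0 < c := by nlinarith
  have hc1 : c < 1 := by nlinarith
  obtain ⟨t, ht, hcov⟩ := (isCompact_sphere (0 : ℂ) 1).elim_nhds_subcover
    (fun w => {a | c < rho a w}) (fun w hw => by
      refine IsOpen.mem_nhds (isOpen_lt continuous_const (by unfold rho; fun_prop)) ?_
      have := sq1 (mem_sphere_zero_iff_norm.1 hw)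
      change c < rho w w
      unfold rho; nlinarith)
  let U0 : Finset E := insert (ee 1) (insert (ee (-1)) (t.image (dir c)))
  have h0 : Illum KK U0 := by
    intro x hx
    rw [fr_iff] at hx
    have hx' : ‖zz x‖ + |x 2| = 1 := hx
    have hz := norm_nonneg (zz x)
    rcases lt_trichotomy (x 2) 0 with h | h | h
    · rw [abs_of_neg h] at hx'
      refine ⟨ee 1, by simp [U0], -x 2 / 2, by linarith, by linarith, ?_⟩
      rw [int_iff, NN_ee, abs_of_neg (by linarith)]; linarith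
    · rw [h, abs_zero, add_zero] at hx'
      obtain ⟨w, hw, hxw⟩ := mem_iUnion₂.1 (hcov (mem_sphere_zero_iff_norm.2 hx'))
      have hxw' : c < rho (zz x) w := hxw
      have hs := u0_pos hc w
      obtain ⟨η, h1, h2⟩ := exists_between
        (lt_min (lt_min one_pos (sub_pos.2 hxw')) (inv_pos.2 hs))
      have h3 : η * ‖u0 c w‖ * ‖u0 c w‖⁻¹ = η := by field_simp
      refine ⟨dir c w, by simp only [U0, Finset.coe_insert, Finset.coe_image]; right; right; exact ⟨w, hw, rfl⟩,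
        η * ‖u0 c w‖, by positivity, ?_, ?_⟩
      · have := mul_lt_mul_of_pos_right (lt_min_iff.1 h2).2 hs
        rwa [inv_mul_cancel₀ hs.ne'] at this
      · rw [int_iff, NN_dir hc w x h (by positivity), h3]
        exact lemB hx' (mem_sphere_zero_iff_norm.1 (ht w hw)) hc hc1 h1
          (lt_min_iff.1 (lt_min_iff.1 h2).1).1 (lt_min_iff.1 (lt_min_iff.1 h2).1).2
    · rw [abs_of_pos h] at hx'
      refine ⟨ee (-1), by simp [U0], x 2 / 2, by linarith, by linarith, ?_⟩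
      rw [int_iff, NN_ee, abs_of_pos (by linarith)]; linarith
  obtain ⟨U, hU, hmin⟩ := Finset.exists_min_image (U0.powerset.filter fun W : Finset E => Illum KK W)
    Finset.card ⟨U0, by simp [h0]⟩
  rw [Finset.mem_filter, Finset.mem_powerset] at hU
  have hcase : ∀ u ∈ U, u = ee 1 ∨ u = ee (-1) ∨ ∃ w ∈ t, dir c w = u := fun u hu => by
    simpa [U0] using hU.1 hu
  refine ⟨U, ?_, fun u hu => ?_, hU.2, fun V hV hI => ?_⟩
  · let v : Fin n → E := fun i => !₂[δ * i, √(1 - (δ * i) ^ 2), 0]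
    have hre : ∀ i, (zz (v i)).re = δ * i := fun i => by simp [zz, v]
    have hv1 : ∀ i, ‖zz (v i)‖ = 1 := fun i => by
      have hi : ((i : ℕ) : ℝ) ≤ n := by exact_mod_cast i.2.le
      have hi0 : (0 : ℝ) ≤ (i : ℕ) := Nat.cast_nonneg _
      have h1 : 0 ≤ 1 - (δ * i) ^ 2 := by nlinarith [mul_nonneg hδ0.le hi0, mul_le_mul_of_nonneg_left hi hδ0.le]
      have him : (zz (v i)).im = √(1 - (δ * i) ^ 2) := by simp [zz, v]
      have h2 : ‖zz (v i)‖ ^ 2 = 1 := by
        rw [Complex.sq_norm, Complex.normSq_apply, hre, him, Real.mul_self_sqrt h1]; ring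
      nlinarith [norm_nonneg (zz (v i))]
    have hv2 : ∀ i, v i 2 = 0 := fun i => rfl
    have key : ∀ i, ∃ u ∈ U, ∃ w ∈ t, dir c w = u ∧ ∀ w', dir c w' = u → c < rho (zz (v i)) w' := by
      intro i
      obtain ⟨u, hu, ε, h1, -, h3⟩ := hU.2 (v i) ((fr_iff _).2 (by rw [NN, hv1, hv2]; simp))
      rw [int_iff] at h3
      rcases hcase u hu with rfl | rfl | ⟨w, hw, rfl⟩
      · rw [NN_ee, hv1] at h3; linarith [abs_nonneg (v i 2 + ε * 1)]
      · rw [NN_ee, hv1] at h3; linarith [abs_nonneg (v i 2 + ε * -1)]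
      · refine ⟨_, hu, w, hw, rfl, fun w' hw' => ?_⟩
        rw [← hw', NN_dir hc w' _ (hv2 i) h1] at h3
        exact lemA (hv1 i) (mul_pos h1 (inv_pos.2 (u0_pos hc w'))) h3
    choose u hu w hw hd hr using key
    have := Finset.card_le_card_of_injOn (s := Finset.univ) (t := U) u (fun i _ => hu i) (by
      intro i _ j _ hij
      have a1 := hr i (w i) (hd i)
      have a2 := hr j (w i) ((hd i).trans hij)
      have b1 := sq1 (hv1 i)
      have b2 := sq1 (hv1 j)
      have b3 := sq1 (mem_sphere_zero_iff_norm.1 (ht _ (hw i)))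
      unfold rho at a1 a2
      rw [hre] at a1 a2 b1 b2
      have d1 : (δ * i - (w i).re) ^ 2 < δ ^ 2 / 4 := by
        nlinarith [sq_nonneg ((zz (v i)).im - (w i).im)]
      have d2 : (δ * j - (w i).re) ^ 2 < δ ^ 2 / 4 := by
        nlinarith [sq_nonneg ((zz (v j)).im - (w i).im)]
      have e1 := abs_lt_of_sq_lt_sq' (b := δ / 2) (by linarith : (δ * i - (w i).re) ^ 2 < (δ / 2) ^ 2) (by linarith)
      have e2 := abs_lt_of_sq_lt_sq' (b := δ / 2) (by linarith : (δ * j - (w i).re) ^ 2 < (δ / 2) ^ 2) (by linarith)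
      have f1 : ((i : ℕ) : ℝ) < (j : ℕ) + 1 := by
        by_contra hh
        nlinarith [e1.1, e1.2, e2.1, e2.2, mul_le_mul_of_nonneg_left (not_lt.1 hh) hδ0.le]
      have f2 : ((j : ℕ) : ℝ) < (i : ℕ) + 1 := by
        by_contra hh
        nlinarith [e1.1, e1.2, e2.1, e2.2, mul_le_mul_of_nonneg_left (not_lt.1 hh) hδ0.le]
      have g1 : (i : ℕ) < j + 1 := by exact_mod_cast f1
      have g2 : (j : ℕ) < i + 1 := by exact_mod_cast f2
      exact Fin.ext (by omega))
    simpa using this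
  · rcases hcase u hu with rfl | rfl | ⟨w, -, rfl⟩
    · simp [ee, EuclideanSpace.norm_eq, Fin.sum_univ_three]
    · simp [ee, EuclideanSpace.norm_eq, Fin.sum_univ_three]
    · rw [dir, norm_smul, norm_inv, norm_norm, inv_mul_cancel₀ (u0_pos hc w).ne']
  · lift V to Finset E using (U.finite_toSet.subset hV.subset)
    have h1 : V ⊂ U := Finset.coe_ssubset.1 hV
    have h2 := hmin V (by
      rw [Finset.mem_filter, Finset.mem_powerset]; exact ⟨h1.subset.trans hU.1, hI⟩)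
    exact absurd (Finset.card_lt_card h1) (not_lt.2 h2)

end Pool.Agent.Results.MP_26bcd4_gt.Outer
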